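import Pool.Agent.helper82.UN.SpecP

/-! Row PGJ of project UN (MP_cf4097_nt), block H, part P -/

set_option autoImplicit false

open NumberField Complex MeasureTheory nonZeroDivisors

namespace Pool.Agent.UN

theorem PGJ (hPGC : PGC_stmt) : PGJ_stmt := by
  intro y ξ m hy
  have h1 := hPGC y ((starRingEnd ℂ) ξ) m hy
  rw [Complex.conj_conj, Complex.norm_conj] at h1
  rw [← h1]
  have hmp : MeasurePreserving (fun z : ℂ => (starRingEnd ℂ) z) volume volume :=
    Complex.conjLIE.measurePreserving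
  have hemb : MeasurableEmbedding (fun z : ℂ => (starRingEnd ℂ) z) :=
    Complex.conjLIE.toHomeomorph.measurableEmbedding
  have h2 := hmp.integral_comp hemb (fun z : ℂ => z ^ m * (Real.exp (-(Real.pi * 2 * y * ‖z‖ ^ 2)) : ℂ) *
    ee (-(2 * ((starRingEnd ℂ) ξ * z).re)))
  rw [← h2]
  congr 1
  funext z
  have e1 : ((starRingEnd ℂ) ξ * (starRingEnd ℂ) z).re = (ξ * z).re := by
    rw [← map_mul, Complex.conj_re]
  rw [e1, Complex.norm_conj]

end Pool.Agent.UN
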