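import Pool.Agent.helper82.UN.SpecP

/-! Row PVO of project UN (MP_cf4097_nt), block H, part P -/

set_option autoImplicit false

open NumberField Complex MeasureTheory nonZeroDivisors

namespace Pool.Agent.UN

open scoped Classical in
theorem PVO : PVO_stmt := by
  intro K _ _ J A hA
  rw [mixedEmbedding.volume_fundamentalDomain_fractionalIdealLatticeBasis,
    mixedEmbedding.volume_fundamentalDomain_latticeBasis]
  have h1 : (FractionalIdeal.absNorm (A : FractionalIdeal (𝓞 K)⁰ K) : ℚ) = (Ideal.absNorm J : ℚ) := by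
    rw [hA, FractionalIdeal.coeIdeal_absNorm]
  have h2 : ((FractionalIdeal.absNorm A.1 : ℚ) : ℝ) = Nm J := by
    rw [h1]
    unfold Nm
    simp
  rw [ENNReal.toReal_mul, ENNReal.toReal_mul, ENNReal.toReal_ofReal]
  · rw [h2, ENNReal.toReal_pow, ENNReal.toReal_inv]
    have h3 : (ENNReal.ofNNReal (NNReal.sqrt ‖discr K‖₊)).toReal = (Dc K) ^ (1 / 2 : ℝ) := by
      rw [ENNReal.coe_toReal, Real.coe_sqrt, Real.sqrt_eq_rpow]
      congr 1
    rw [h3]
    simp only [ENNReal.toReal_ofNat]
    ring
  · rw [h2]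
    unfold Nm
    positivity

end Pool.Agent.UN
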